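import Pool.Agent.Y303.SK.XDefs
import Pool.Agent.Y328.SK.Bas

/-!
# Project SKX: the complete system of the swirl modes
-/

open Set Filter Topology MeasureTheory Metric

set_option autoImplicit false

namespace Pool.Agent.Y455.SKX

open Pool.Agent.Y5 (E3)
open Pool.Agent.Y303.SK
open Pool.Agent.Y328.SK

noncomputable section

theorem rtz_add (θ : ℝ) (x y : E3) : rtz θ (x + y) = rtz θ x + rtz θ y := by
  ext i; fin_cases i <;> simp [rtz] <;> ring

theorem rtz_smul (θ c : ℝ) (x : E3) : rtz θ (c • x) = c • rtz θ x := by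
  ext i; fin_cases i <;> simp [rtz] <;> ring

theorem rtz_Jm (θ : ℝ) (x : E3) : Jm (rtz θ x) = rtz θ (Jm x) := by
  ext i; fin_cases i <;> simp [rtz, Jm_apply] <;> ring

theorem rtz_norm (θ : ℝ) (x : E3) : ‖rtz θ x‖ ^ 2 = ‖x‖ ^ 2 := by
  rw [EuclideanSpace.norm_sq_eq, EuclideanSpace.norm_sq_eq]
  simp only [Fin.sum_univ_three, Real.norm_eq_abs, sq_abs]
  simp only [rtz]
  simp
  nlinarith [Real.sin_sq_add_cos_sq θ]

theorem swl_zero : Swl (0 : E3 → E3) :=
  ⟨fun θ x => by ext i; fin_cases i <;> simp [rtz], fun x => by simp⟩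

theorem swl_add {v w : E3 → E3} (hv : Swl v) (hw : Swl w) : Swl (v + w) :=
  ⟨fun θ x => by rw [Pi.add_apply, hv.axi, hw.axi, Pi.add_apply, rtz_add], fun x => by
    have h1 := hv.pol x
    have h2 := hw.pol x
    refine ⟨?_, ?_⟩
    · simp [h1.1, h2.1]
    · simp only [Pi.add_apply, PiLp.add_apply]
      linear_combination h1.2 + h2.2⟩

theorem swl_smul {v : E3 → E3} (c : ℝ) (hv : Swl v) : Swl (c • v) :=
  ⟨fun θ x => by rw [Pi.smul_apply, hv.axi, Pi.smul_apply, rtz_smul], fun x => by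
    have h1 := hv.pol x
    refine ⟨?_, ?_⟩
    · simp [h1.1]
    · simp only [Pi.smul_apply, PiLp.smul_apply, smul_eq_mul]
      linear_combination c * h1.2⟩

/-- The space of the swirl fields. -/
def SW : Submodule ℝ (VS univ) where
  carrier := {v | Swl v}
  zero_mem' := swl_zero
  add_mem' := fun hv hw => swl_add hv hw
  smul_mem' := fun c _ hv => swl_smul c hv

theorem ff_swl (r : ℝ) : Swl (ff 0 r) := by
  refine ⟨fun θ x => ?_, fun x => ?_⟩
  · unfold ff sf
    rw [sub_zero, sub_zero, rtz_norm, rtz_smul, rtz_Jm]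
  · unfold ff
    rw [sub_zero]
    refine ⟨?_, ?_⟩
    · simp [Jm_apply]
    · simp [Jm_apply]
      ring

theorem ff_in {r : ℝ} (hr : 0 < r) {x : E3} (hx : ‖x‖ ≤ r) : ff 0 r x = Jm x := by
  unfold ff sf
  rw [sub_zero, Real.smoothTransition.one_of_one_le, one_smul]
  have : ‖x‖ ^ 2 / r ^ 2 ≤ 1 := by
    rw [div_le_one (by positivity)]
    exact pow_le_pow_left₀ (norm_nonneg _) hx 2
  linarith

theorem ff_out {r : ℝ} (hr : 0 < r) {x : E3} (hx : 3 / 2 * r < ‖x‖) : ff 0 r x = 0 := by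
  by_contra h
  have := ff_supp 0 hr h
  rw [mem_closedBall, dist_zero_right] at this
  linarith

/-- Swirl fields with disjoint supports. -/
def dd (k : ℕ) : E3 → E3 := ff 0 (2 * 4 ^ k) + (-1 : ℝ) • ff 0 (4 ^ k)

theorem ff_cs' {r : ℝ} (hr : 0 < r) : CS univ (ff 0 r) :=
  cs_mono (subset_univ _) (ff_cs 0 (r := r) (ρ := 2 * r) hr (by linarith))

theorem dd_mem (k : ℕ) : dd k ∈ VS univ := by
  have h1 : ff 0 (2 * 4 ^ k) ∈ VS univ := ff_cs' (by positivity)
  have h2 : ff 0 (4 ^ k) ∈ VS univ := ff_cs' (by positivity)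
  exact (VS univ).add_mem h1 ((VS univ).smul_mem _ h2)

theorem dd_swl (k : ℕ) : Swl (dd k) := swl_add (ff_swl _) (swl_smul _ (ff_swl _))

theorem dd_supp (k : ℕ) (x : E3) (h : dd k x ≠ 0) : (4 : ℝ) ^ k < ‖x‖ ∧ ‖x‖ ≤ 3 * 4 ^ k := by
  have hp : (0 : ℝ) < 4 ^ k := by positivity
  constructor
  · by_contra hc
    push Not at hc
    apply h
    unfold dd
    rw [Pi.add_apply, Pi.smul_apply, ff_in (by positivity) hc,
      ff_in (by positivity) (by linarith)]
    simp
  · by_contra hc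
    push Not at hc
    apply h
    unfold dd
    rw [Pi.add_apply, Pi.smul_apply, ff_out (by positivity) (by linarith),
      ff_out (by positivity) (by linarith)]
    simp

theorem dd_disj {j k : ℕ} (h : j ≠ k) (x : E3) : dd j x = 0 ∨ dd k x = 0 := by
  have key : ∀ j k : ℕ, j < k → ∀ x, dd j x = 0 ∨ dd k x = 0 := by
    intro j k hjk x
    by_contra hc
    push Not at hc
    have h1 := (dd_supp j x hc.1).2
    have h2 := (dd_supp k x hc.2).1
    have h3 : (4 : ℝ) * 4 ^ j ≤ 4 ^ k := by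
      rw [← pow_succ']
      exact pow_le_pow_right₀ (by norm_num) hjk
    have hp : (0 : ℝ) < 4 ^ j := by positivity
    linarith
  rcases lt_or_gt_of_ne h with h | h
  · exact key j k h x
  · exact (key k j h x).symm

theorem dd_ne (k : ℕ) : dd k ≠ 0 := by
  intro h
  have hp : (0 : ℝ) < 4 ^ k := by positivity
  have hn : ‖((2 * 4 ^ k : ℝ) • cv 0 : E3)‖ = 2 * 4 ^ k := by
    rw [norm_smul]
    simp [cv]
  have h1 := congrFun h ((2 * 4 ^ k : ℝ) • cv 0)
  unfold dd at h1
  rw [Pi.add_apply, Pi.smul_apply, ff_in (by positivity) hn.le,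
    ff_out (by positivity) (by rw [hn]; linarith), smul_zero, add_zero] at h1
  have h2 := congrArg (fun z : E3 => z 1) h1
  simp [Jm_apply, cv] at h2

theorem t_SWB (hg : S_GS) : S_SWB := by
  classical
  set Y : Set (Lp E3 2 (volume : Measure E3)) := TT univ '' (SW : Set (VS univ)) with hY
  have : Nonempty Y := ⟨⟨TT univ 0, ⟨0, SW.zero_mem, rfl⟩⟩⟩
  have : Fact ((2 : ENNReal) ≠ ⊤) := ⟨by norm_num⟩
  have : SecondCountableTopology (Lp E3 2 (volume : Measure E3)) := inferInstance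
  obtain ⟨u, hu⟩ := TopologicalSpace.exists_dense_seq Y
  choose U hU0 hU using fun k => (u k).2
  set f' : ℕ → VS univ := fun n => ⟨dd n, dd_mem n⟩ with hf'
  set Φ : ℕ → VS univ := fun k => if Even k then U (k / 2) else f' (k / 2) with hΦdef
  have hΦe : ∀ k, Φ (2 * k) = U k := by
    intro k
    simp only [hΦdef]
    rw [if_pos (even_two_mul k), Nat.mul_div_cancel_left k two_pos]
  have hΦo : ∀ k, Φ (2 * k + 1) = f' k := by
    intro k
    simp only [hΦdef]
    rw [if_neg (by rw [Nat.not_even_iff_odd]; exact odd_two_mul_add_one k)]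
    congr 1
    omega
  have hΦG : ∀ k, Φ k ∈ SW := by
    intro k
    rcases Nat.even_or_odd' k with ⟨m, h | h⟩
    · rw [h, hΦe]
      exact hU0 m
    · rw [h, hΦo]
      exact dd_swl m
  have hli : LinearIndependent ℝ (fun k => TT univ (f' k)) := by
    apply linearIndependent_of_ne_zero_of_inner_eq_zero (𝕜 := ℝ)
    · intro k h
      apply dd_ne k
      have h1 : f' k = 0 := TT_inj (by rw [h, map_zero])
      exact congrArg Subtype.val h1
    · intro j k hjk
      rw [inner_TT]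
      unfold ipr
      rw [integral_eq_zero_of_ae]
      refine Eventually.of_forall fun x => ?_
      rcases dd_disj hjk x with h | h
      · simp [hf', h]
      · simp [hf', h]
  have hinf : ¬ FiniteDimensional ℝ (Submodule.span ℝ (range fun k => TT univ (Φ k))) := by
    intro hfin
    set M := Submodule.span ℝ (range fun k => TT univ (Φ k)) with hM
    have h1 : ∀ k, TT univ (f' k) ∈ M := fun k =>
      Submodule.subset_span ⟨2 * k + 1, by simp only [hΦo]⟩
    have h2 : LinearIndependent ℝ (fun k : ℕ => (⟨TT univ (f' k), h1 k⟩ : M)) :=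
      LinearIndependent.of_comp M.subtype hli
    have h3 := h2.finite
    exact not_finite ℕ
  obtain ⟨w, hwo, hwφ, hφw⟩ := hg (Lp E3 2 (volume : Measure E3)) (fun k => TT univ (Φ k)) hinf
  have hspan : Submodule.span ℝ (range fun k => TT univ (Φ k)) =
      (Submodule.span ℝ (range Φ)).map (TT univ) := by
    rw [Submodule.map_span, ← range_comp]
    rfl
  have hW : ∀ j, ∃ W ∈ Submodule.span ℝ (range Φ), TT univ W = w j := by
    intro j
    have h1 := hwφ j
    rw [hspan] at h1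
    exact h1
  choose W hW1 hW2 using hW
  have hWG : ∀ j, W j ∈ SW := fun j =>
    (Submodule.span_le.2 (range_subset_iff.2 hΦG)) (hW1 j)
  obtain ⟨ee⟩ : Nonempty (ℕ ≃ ℕ × Bool) := nonempty_equiv_of_countable
  refine ⟨fun j => W (ee j), fun j => (W (ee j)).2, fun j => hWG (ee j), fun i j => ?_, ?_⟩
  · change (i = j → ipr (W (ee i)) (W (ee j)) = 1) ∧ (i ≠ j → ipr (W (ee i)) (W (ee j)) = 0)
    rw [← inner_TT, hW2, hW2]
    have h1 := orthonormal_iff_ite.1 hwo (ee i) (ee j)
    rw [h1]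
    exact ⟨fun h => if_pos (by rw [h]), fun h => if_neg fun h' => h (ee.injective h')⟩
  · intro v hv hvs ε hε
    set V : VS univ := ⟨v, hv⟩ with hV
    have hsq : 0 < √ε := by positivity
    obtain ⟨k, hk⟩ := hu.exists_dist_lt (⟨TT univ V, ⟨V, hvs, rfl⟩⟩ : Y) hsq
    have h2 : ‖TT univ (V - U k)‖ < √ε := by
      rw [map_sub, hU k, ← dist_eq_norm]
      exact hk
    have h3 : TT univ (Φ (2 * k)) ∈ Submodule.span ℝ (range w) := hφw (2 * k)
    obtain ⟨c, hc⟩ := (Finsupp.mem_span_range_iff_exists_finsupp).1 h3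
    have h4 : ∑ j ∈ c.support, c j • W j = U k := by
      rw [← hΦe]
      apply TT_inj
      rw [map_sum, ← hc]
      refine Finset.sum_congr rfl fun j _ => ?_
      rw [map_smul, hW2]
    refine ⟨c.support.map ee.symm.toEmbedding, fun n => c (ee n), ?_⟩
    have h6 : ∀ x, ∑ a ∈ c.support.map ee.symm.toEmbedding,
        c (ee a) • ((W (ee a) : VS univ) : E3 → E3) x = ((U k : VS univ) : E3 → E3) x := by
      intro x
      rw [← h4, Finset.sum_map, Submodule.coe_sum, Finset.sum_apply]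
      refine Finset.sum_congr rfl fun j _ => ?_
      simp
    simp_rw [h6]
    have h7 : ∫ x, ‖v x - ((U k : VS univ) : E3 → E3) x‖ ^ 2 = ‖TT univ (V - U k)‖ ^ 2 := by
      rw [norm_TT]
      rfl
    rw [h7]
    calc ‖TT univ (V - U k)‖ ^ 2 < √ε ^ 2 := pow_lt_pow_left₀ h2 (norm_nonneg _) two_ne_zero
      _ = ε := Real.sq_sqrt hε.le

end

end Pool.Agent.Y455.SKX
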